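import Pool.Agent.H94.CC.Stmts

/-!
Module AVN: the first property of the generic family.
-/

set_option linter.unusedVariables false
set_option linter.unusedSectionVars false
set_option synthInstance.maxSize 100000

namespace SW.CC

theorem cc_avn (hsmn : SMNStmt) (hdir : DIRStmt) (havo : AVOStmt) (hhgf : HGFStmt) :
    AVNStmt := by
  intro M _ _ _ κ U A G hU hA hG _ F a hF hsm ha
  have ef := embF hG
  have tf := traF hG
  have hX : Sub F (emb (CF κ) G (pow (prod (pow κ) two))) := by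
    intro z hz
    obtain ⟨a', F', e, hp, he, rfl⟩ := (hhgf M κ G hG z).1 (hF z hz)
    have hp' := mem_CP'.1 (hG.sub _ hp)
    rw [ef.mem, mem_pow]
    intro y hy
    obtain ⟨c, d, hc, hd, rfl⟩ := mem_prod'.1 (hp'.2.2.1 e he y hy)
    exact mem_prod.2 ⟨hp'.1 c hc, hd⟩
  obtain ⟨S0, h1, h2, rfl⟩ := hsmn M κ U G hU hG _ F hX hsm
  obtain ⟨a0, ha0, rfl⟩ := ef.trans _ _ ha
  obtain ⟨a1, F1, hp, hS0⟩ := hdir M κ U S0 G hU hG h2 (fun e he => by
    obtain ⟨a', F', e', hp, he', h⟩ := (hhgf M κ G hG _).1 (hF _ ((ef.mem e S0).2 he))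
    rw [ef.inj] at h
    subst h
    exact ⟨a', F', hp, he'⟩)
  obtain ⟨x, hx, hxa, hx'⟩ := havo M κ U A a1 F1 S0 a0 hU hA (hG.sub _ hp) hS0 h2 ha0
  refine ⟨emb (CF κ) G x, (ef.mem _ _).2 hx, fun h => hxa ((ef.mem _ _).1 h), fun e he hin => ?_⟩
  obtain ⟨e, he0, rfl⟩ := ef.trans _ _ he
  refine hx' e he0 fun i b hib => ?_
  have h3 := hin (emb (CF κ) G i) (emb (CF κ) G b) (by rw [← tf.opair, ef.mem]; exact hib)
  rw [← tf.opair, ef.mem] at h3
  rw [h3]
  have h4 : (sing emp : Ext (CF κ) G) = emb (CF κ) G (sing emp) := by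
    have e1 : (sing emp : Ext (CF κ) G) = ins emp emp := ext fun z => by
      rw [mem_sing, mem_ins]
      exact ⟨fun h => Or.inr h, fun h => h.resolve_left (not_mem_emp z)⟩
    have e2 : (sing emp : M) = ins emp emp := ext fun z => by
      rw [mem_sing, mem_ins]
      exact ⟨fun h => Or.inr h, fun h => h.resolve_left (not_mem_emp z)⟩
    rw [e1, e2, tf.ins, tf.emp]
  rw [h4, ef.inj]

end SW.CC
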