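import Pool.Agent.H94.CC.Stmts

/-!
Module AVO: small subsets of the second component of a condition can be avoided.
-/

set_option linter.unusedVariables false
set_option linter.unusedSectionVars false
set_option synthInstance.maxSize 100000

namespace SW.CC

theorem cc_avo (hchs : CHSStmt) (hsma : SMAStmt) : AVOStmt := by
  intro M _ _ κ U A a F F0 b hU hA hp hF0 hsm hb
  rw [mem_CP'] at hp
  obtain ⟨h1, h2, h3, r, r1, r2, r3⟩ := hp
  obtain ⟨g, hg⟩ := hchs M F0 (fun e x : M => E (opair e x) r) inferInstance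
    (fun e he => r2 e (hF0 e he) (not_mem_emp e))
  have hS : ∀ i, E i (img F0 (fun e : M => app g e)) ↔ ∃ e, E e F0 ∧ i = app g e :=
    fun i => mem_img' inferInstance
  have hS1 : ∀ i, E i (sep (img F0 (fun e : M => app g e)) (fun i : M => ∃ e : M, E e F0 ∧
      i = app g e ∧ E (opair i emp) e)) ↔ E i (img F0 (fun e : M => app g e)) ∧
      ∃ e : M, E e F0 ∧ i = app g e ∧ E (opair i emp) e := fun i => mem_sep' inferInstance
  obtain ⟨x, hx, hxb, hx'⟩ := hA (img F0 (fun e : M => app g e))
    (sep (img F0 (fun e : M => app g e)) (fun i : M => ∃ e : M, E e F0 ∧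
      i = app g e ∧ E (opair i emp) e)) b
    ((hsma M κ U hU).img (fun e : M => app g e) inferInstance hsm)
    (fun i hi => by
      obtain ⟨e, he, rfl⟩ := (hS i).1 hi
      exact h1 _ (r1 e _ (hg e he)).2.1.1)
    (fun i hi => ((hS1 i).1 hi).1) hb
  refine ⟨x, hx, hxb, fun e he hin => ?_⟩
  have hi : E (app g e) (img F0 (fun e : M => app g e)) := (hS _).2 ⟨e, he, rfl⟩
  have hxi := hx' _ hi
  have hne : (emp : M) ≠ sing emp := by
    intro h
    have : E (emp : M) (sing emp) := by rw [mem_sing]
    rw [← h] at this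
    exact not_mem_emp _ this
  by_cases hc : E (opair (app g e) emp) e
  · have h4 := (hxi.2 ((hS1 _).2 ⟨hi, e, he, rfl, hc⟩))
    exact hne ((hin _ _ hc).1 h4)
  · obtain ⟨_, _, c, hc'⟩ := r1 e _ (hg e he)
    have hc2 : c = sing emp := by
      have h5 := h3 e (hF0 e he) _ hc'
      rw [mem_prod] at h5
      have h6 := h5.2
      unfold two at h6
      rw [mem_upair] at h6
      rcases h6 with h6 | h6
      · rw [h6] at hc'
        exact absurd hc' hc
      · exact h6
    have h4 := (hin _ _ hc').2 hc2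
    obtain ⟨_, e', he', h5, h6⟩ := (hS1 _).1 (hxi.1 h4)
    have h7 := hg e' he'
    rw [← h5] at h7
    have h8 := r3 _ _ _ (hg e he) h7
    rw [← h8] at h6
    exact hc h6

end SW.CC
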