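import Pool.Agent.H94.CC.Stmts

/-!
Module CHS: choice for class relations.
-/

set_option linter.unusedVariables false
set_option linter.unusedSectionVars false
set_option synthInstance.maxSize 100000

namespace SW.CC

theorem cc_chs (hacf : ACFStmt) : CHSStmt := by
  intro M _ _ a R hR h
  obtain ⟨b, hb⟩ := collF R hR a h
  obtain ⟨g0, hg0⟩ := hacf M b
  have hm : ∀ x y, E y (sep b (fun y : M => R x y)) ↔ E y b ∧ R x y :=
    fun x y => mem_sep' inferInstance
  refine ⟨gr a (fun x : M => app g0 (sep b (fun y : M => R x y))), fun x hx => ?_⟩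
  rw [app_gr inferInstance hx]
  obtain ⟨y, hy, hy'⟩ := hb x hx
  exact ((hm x _).1 (hg0 _ (fun z hz => ((hm x z).1 hz).1) ⟨y, (hm x y).2 ⟨hy, hy'⟩⟩)).2

end SW.CC
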