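import Pool.Agent.H94.CC.Stmts

/-!
Module DIR: small subsets (in `M`) of the generic family are contained in one condition.
-/

set_option linter.unusedVariables false
set_option linter.unusedSectionVars false
set_option synthInstance.maxSize 100000

namespace SW.CC

theorem cc_dir (hexd : EXDStmt) (hksm : KSMStmt) (hsmb : SMBStmt) : DIRStmt := by
  intro M _ _ κ U F0 G hU hG hsm hF0
  have hk := hksm M κ U hU
  have hF0i : Img κ F0 := (hsmb M κ U hU).im hsm
  have himg : ∀ e z : M, E z (img e (fun z : M => fst z)) ↔ ∃ y, E y e ∧ z = fst y :=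
    fun e z => mem_img' inferInstance
  have hc : ∀ z, E z (sUn (img F0 (fun e : M => img e (fun z : M => fst z)))) ↔
      ∃ e, E e F0 ∧ ∃ y, E y e ∧ z = fst y := by
    intro z
    rw [mem_sUn]
    constructor
    · rintro ⟨w, hw, hz⟩
      obtain ⟨e, he, rfl⟩ := (mem_img' inferInstance).1 hw
      exact ⟨e, he, (himg e z).1 hz⟩
    · rintro ⟨e, he, hz⟩
      exact ⟨_, (mem_img' inferInstance).2 ⟨e, he, rfl⟩, (himg e z).2 hz⟩
  have hfst : ∀ e, E e F0 → ∃ a' : M, Sub a' (pow κ) ∧ Img κ a' ∧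
      ∀ y, E y e → E (fst y) a' := by
    intro e he
    obtain ⟨a', F', hp, he'⟩ := hF0 e he
    have hp' := mem_CP'.1 (hG.sub _ hp)
    refine ⟨a', hp'.1, hp'.2.1, fun y hy => ?_⟩
    obtain ⟨c, d, hc, hd, rfl⟩ := mem_prod'.1 (hp'.2.2.1 e he' y hy)
    rw [fst_opair]
    exact hc
  have hcs : Sub (sUn (img F0 (fun e : M => img e (fun z : M => fst z)))) (pow κ) := by
    intro z hz
    obtain ⟨e, he, y, hy, rfl⟩ := (hc z).1 hz
    obtain ⟨a', h1, _, h2⟩ := hfst e he
    exact h1 _ (h2 y hy)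
  have hci : Img κ (sUn (img F0 (fun e : M => img e (fun z : M => fst z)))) := by
    refine hk.iUn (fun e : M => img e (fun z : M => fst z)) inferInstance hF0i fun e he => ?_
    obtain ⟨a', _, h1, h2⟩ := hfst e he
    refine hk.sub h1 fun z hz => ?_
    obtain ⟨y, hy, rfl⟩ := (himg e z).1 hz
    exact h2 y hy
  obtain ⟨p, hp, hpc⟩ := (genF hG).meetC (fun p : M => Sub F0 (snd p) ∨ ∃ e : M, E e F0 ∧
      ¬ E e (snd p) ∧ ∀ z : M, E z e → E (fst z) (fst p)) inferInstance (fun p hp => by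
    have hpp := CP_pair hp
    have hp2 := hp
    rw [hpp] at hp2
    obtain ⟨h1, h2⟩ := hexd M κ U (fst p) (snd p) _ hU hp2 hcs hci
    refine ⟨_, h1, ?_, ?_⟩
    · rw [← hpp] at h2
      exact h2
    · rw [snd_opair, fst_opair]
      by_cases hs : Sub F0 (snd p)
      · exact Or.inl hs
      · right
        unfold Sub at hs
        push Not at hs
        obtain ⟨e, he, he'⟩ := hs
        refine ⟨e, he, he', fun z hz => ?_⟩
        rw [mem_bun]
        exact Or.inr ((hc _).2 ⟨e, he, z, hz, rfl⟩))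
  have hpp := CP_pair (hG.sub p hp)
  rcases hpc with hs | ⟨e, he, he', hz⟩
  · refine ⟨fst p, snd p, ?_, hs⟩
    rw [← hpp]
    exact hp
  · exfalso
    obtain ⟨a', F', hq, heF⟩ := hF0 e he
    obtain ⟨r, hr, hrp, hrq⟩ := hG.dir _ _ hp hq
    have h1 : Sub (snd (opair a' F')) (snd r) := hrq.2.1
    rw [snd_opair] at h1
    obtain ⟨rr, r1, r2, r3⟩ := hrp.2.2
    obtain ⟨x, hx⟩ := r2 e (h1 e heF) he'
    obtain ⟨_, ⟨_, h2⟩, c, hc'⟩ := r1 e x hx
    have h3 := hz _ hc'
    rw [fst_opair] at h3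
    exact h2 h3

end SW.CC
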