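import Pool.Agent.H94.CC.Stmts

/-!
Module FUN: functions (of the extension) on a subset of `κ` with values in a set of `M` are
in `M`.
-/

set_option linter.unusedVariables false
set_option linter.unusedSectionVars false
set_option synthInstance.maxSize 100000

namespace SW.CC

/-- every `i` in `v 0` is related to some `y` in `v 1` -/
def fun_Q (N : Type) [SetStr N] (v : Fin 3 → N) : Prop :=
  ∀ i, E i (v 0) → ∃ y, E y (v 1) ∧ PairIn i y (v 2)

theorem fun_Q_u : UDf (fun M _ (v : Fin 3 → M) => ∀ i, E i (v 0) →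
    ∃ y, E y (v 1) ∧ PairIn i y (v 2)) := by infer_instance

instance fun_Q_df : UDf fun_Q := fun_Q_u

section
variable {M : Type} [SetStr M] [ZF M] [Countable M]

theorem fun_mono {F : FPoset M} {n : ℕ} {Q : ∀ (N : Type) [SetStr N], (Fin n → N) → Prop}
    {p q : M} {v : Fin n → M} (h : FS F Q p v) (hp : E p F.P) (hle : F.le q p) : FS F Q q v :=
  fun G hG hq => h G hG (hG.up q p hq hp hle)

end

theorem cc_fun (hdist : DISTStmt) : FUNStmt := by
  intro M _ _ _ κ U G hU hG _ v A h hv hh hA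
  have ff := semF (CF κ)
  have ef := embF hG
  have tf := traF hG
  have hf : ∀ z, E z (gr (emb (CF κ) G v) h) ↔
      ∃ y, E y (emb (CF κ) G v) ∧ z = opair y (h y) := fun z => mem_gr' hh
  obtain ⟨f', hf'⟩ : ∃ f', mk (CF κ) G f' = gr (emb (CF κ) G v) h :=
    ⟨_, Quot.out_eq _⟩
  -- the forced statement
  have hQ : fun_Q (Ext (CF κ) G)
      (fun i => mk (CF κ) G ((![chk (CF κ) v, chk (CF κ) A, f'] : Fin 3 → M) i)) := by
    intro i hi
    have hi' : E i (emb (CF κ) G v) := hi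
    obtain ⟨i0, hi0, rfl⟩ := ef.trans _ _ hi'
    refine ⟨h (emb (CF κ) G i0), hA i0 hi0, ?_⟩
    show PairIn (emb (CF κ) G i0) (h (emb (CF κ) G i0)) (mk (CF κ) G f')
    rw [hf', pairIn_iff, hf]
    exact ⟨_, hi', rfl⟩
  obtain ⟨p, hp, hpF⟩ := (ff.truth fun_Q G hG _).1 hQ
  have hpP : E p (CP κ) := hG.sub p hp
  have hD : Cl3 (fun r j y : M => E r (CP κ) ∧
      FS (CF κ) QPr r ![chk (CF κ) j, chk (CF κ) y, f']) := by
    have h1 := ff.df QPr
    have h2 : Cl3 (fun r j y : M => FS (CF κ) QPr r ![chk (CF κ) j, chk (CF κ) y, f']) := by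
      have h3 : Df (fun w : Fin 4 → M => FS (CF κ) QPr (w 0) ![w 1, w 2, w 3]) :=
        h1.congr fun w => by
          have : (![w 1, w 2, w 3] : Fin 3 → M) = fun i => w i.succ := by
            funext i; fin_cases i <;> rfl
          rw [this]
      exact h3.comp4 (R := fun a b c d => FS (CF κ) QPr a ![b, c, d])
        (inferInstance : DfT (fun w : Fin 3 → M => w 0))
        (inferInstance : DfT (fun w : Fin 3 → M => chk (CF κ) (w 1)))
        (inferInstance : DfT (fun w : Fin 3 → M => chk (CF κ) (w 2)))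
        (inferInstance : DfT (fun w : Fin 3 → M => f'))
    infer_instance
  obtain ⟨D, hDdef⟩ : ∃ D : M → M → M → Prop, D = fun r j y : M => E r (CP κ) ∧
      FS (CF κ) QPr r ![chk (CF κ) j, chk (CF κ) y, f'] := ⟨_, rfl⟩
  have hD' : Cl3 D := by rw [hDdef]; exact hD
  have hmono : ∀ r r' j y, D r j y → E r' (CP κ) → CLe r' r → D r' j y := by
    intro r r' j y h1 h2 h3
    rw [hDdef] at h1 ⊢
    exact ⟨h2, fun_mono h1.2 h1.1 h3⟩
  have hdense : ∀ r j, E r (CP κ) → CLe r p → E j v →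
      ∃ r' y, E r' (CP κ) ∧ CLe r' r ∧ E y A ∧ D r' j y := by
    intro r j hr hrp hj
    obtain ⟨G', hG', hrG'⟩ := ff.ex r hr
    have ef' := embF hG'
    have hpG' : G' p := hG'.up r p hrG' hpP hrp
    obtain ⟨y, hy, hy'⟩ := hpF G' hG' hpG' (emb (CF κ) G' j) ((ef'.mem j v).2 hj)
    obtain ⟨y0, hy0, rfl⟩ := ef'.trans _ _ (hy : E y (emb (CF κ) G' A))
    obtain ⟨s, hs, hsF⟩ := (ff.truth QPr G' hG' ![chk (CF κ) j, chk (CF κ) y0, f']).1 hy'
    obtain ⟨t, ht, htr, hts⟩ := hG'.dir r s hrG' hs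
    refine ⟨t, y0, hG'.sub t ht, htr, hy0, ?_⟩
    rw [hDdef]
    exact ⟨hG'.sub t ht, fun_mono hsF (hG'.sub s hs) hts⟩
  obtain ⟨q, hq, hqp, g, hg⟩ := (genF hG).meetB (fun q : M => ∃ g : M, ∀ j : M, E j v →
      E (app g j) A ∧ D q j (app g j)) inferInstance p hp (fun p' hp' hp'p => by
    obtain ⟨q, g, h1, h2, h3⟩ := hdist M κ U p' v A D hU hD' hp' hv hmono
      (fun r j hr hrp hj => hdense r j hr (hrp.trans hp'p) hj)
    exact ⟨q, h1, h2, g, h3⟩)
  have hval : ∀ i, E i v → h (emb (CF κ) G i) = emb (CF κ) G (app g i) := by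
    intro i hi
    have h1 := (hg i hi).2
    rw [hDdef] at h1
    have h2 : PairIn (emb (CF κ) G i) (emb (CF κ) G (app g i)) (mk (CF κ) G f') :=
      h1.2 G hG hq
    rw [hf', pairIn_iff, hf] at h2
    obtain ⟨y, hy, e⟩ := h2
    rw [opair_inj] at e
    rw [e.2, e.1]
  refine ⟨g, fun i hi => ⟨(hg i hi).1, hval i hi⟩, ext fun z => ?_⟩
  rw [hf]
  constructor
  · rintro ⟨y, hy, rfl⟩
    obtain ⟨i, hi, rfl⟩ := ef.trans _ _ hy
    rw [hval i hi, ← tf.opair, ef.mem, opair_mem_gr inferInstance]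
    exact ⟨hi, rfl⟩
  · intro hz
    obtain ⟨z0, hz0, rfl⟩ := ef.trans _ _ hz
    obtain ⟨i, hi, rfl⟩ := (mem_gr' inferInstance).1 hz0
    refine ⟨emb (CF κ) G i, (ef.mem i v).2 hi, ?_⟩
    rw [tf.opair, hval i hi]

end SW.CC
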