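import Pool.Agent.H94.CC.Stmts

/-!
Module HGF: members of the generic family.
-/

set_option linter.unusedVariables false
set_option linter.unusedSectionVars false
set_option synthInstance.maxSize 100000

namespace SW.CC

theorem cc_hgf : HGFStmt := by
  intro M _ _ κ G hG _ x
  have ef := embF hG
  have tf := traF hG
  unfold HG
  rw [mem_sUn]
  constructor
  · rintro ⟨y, hy, hx⟩
    obtain ⟨p', hp', rfl⟩ := (mem_img' inferInstance).1 hy
    obtain ⟨p, hp, rfl⟩ := (ef.G_mem _).1 hp'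
    have hpc := CP_pair (hG.sub p hp)
    rw [hpc, tf.opair, snd_opair] at hx
    obtain ⟨e, he, rfl⟩ := ef.trans _ _ hx
    rw [hpc] at hp
    exact ⟨fst p, snd p, e, hp, he, rfl⟩
  · rintro ⟨a, F, e, hp, he, rfl⟩
    refine ⟨emb (CF κ) G F, (mem_img' inferInstance).2 ⟨emb (CF κ) G (opair a F),
      (ef.G_mem _).2 ⟨_, hp, rfl⟩, ?_⟩, (ef.mem e F).2 he⟩
    rw [tf.opair, snd_opair]

end SW.CC
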