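import Pool.Agent.H94.CC.Stmts

/-!
Module MSF: basic facts about a measure.
-/

set_option linter.unusedVariables false
set_option linter.unusedSectionVars false
set_option synthInstance.maxSize 100000

namespace SW.CC

theorem cc_msf : MSFStmt := by
  intro M _ _ κ U hU
  have ordm : ∀ {a : M}, E a κ → Ord a := fun ha => hU.ord.mem ha
  have nemp : ¬ E emp U := hU.np (X := emp) (a := emp) fun z hz => absurd hz (not_mem_emp z)
  -- the intersection of two members, via the completeness
  have hem : E (emp : M) κ := hU.ord.1 _ hU.om _ emp_mem_om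
  have h1m : E (suc emp : M) κ := hU.ord.1 _ hU.om _ (suc_mem_om emp_mem_om)
  have h2m : E (suc (suc emp) : M) κ := hU.ord.1 _ hU.om _ (suc_mem_om (suc_mem_om emp_mem_om))
  have inter : ∀ {X Y : M}, E X U → E Y U → E (inter X Y) U := by
    intro X Y hX hY
    have hf : ∀ i z : M, E z (sep κ (fun z : M => (i = emp → E z X) ∧ (i ≠ emp → E z Y))) ↔
        E z κ ∧ (i = emp → E z X) ∧ (i ≠ emp → E z Y) := fun i z => mem_sep' inferInstance
    have h0 : sep κ (fun z : M => ((emp : M) = emp → E z X) ∧ ((emp : M) ≠ emp → E z Y)) = X := by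
      refine ext fun z => ?_
      rw [hf]
      exact ⟨fun h => h.2.1 rfl, fun h => ⟨hU.sub hX z h, fun _ => h, fun h' => absurd rfl h'⟩⟩
    have h1 : ∀ i : M, i ≠ emp →
        sep κ (fun z : M => (i = emp → E z X) ∧ (i ≠ emp → E z Y)) = Y := by
      intro i hi
      refine ext fun z => ?_
      rw [hf]
      exact ⟨fun h => h.2.2 hi, fun h => ⟨hU.sub hY z h, fun h' => absurd h' hi, fun _ => h⟩⟩
    have key := hU.cmp (v := suc (suc emp))
      (fun i : M => sep κ (fun z : M => (i = emp → E z X) ∧ (i ≠ emp → E z Y)))
      inferInstance h2m (fun x hx => by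
        by_cases he : x = emp
        · rw [he, h0]; exact hX
        · rw [h1 x he]; exact hY)
    have e : sep κ (fun z : M => ∀ x : M, E x (suc (suc emp)) →
        E z (sep κ (fun z : M => (x = emp → E z X) ∧ (x ≠ emp → E z Y)))) = SW.inter X Y := by
      refine ext fun z => ?_
      rw [mem_sep' inferInstance, mem_inter]
      constructor
      · rintro ⟨hz, h⟩
        constructor
        · have := h emp (by rw [mem_suc, mem_suc]; exact Or.inl (Or.inr rfl))
          rw [h0] at this
          exact this
        · have := h (suc emp) (by rw [mem_suc]; exact Or.inr rfl)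
          rw [h1 _ (suc_ne_emp _)] at this
          exact this
      · rintro ⟨hzX, hzY⟩
        refine ⟨hU.sub hX z hzX, fun x hx => ?_⟩
        rw [hf]
        exact ⟨hU.sub hX z hzX, fun _ => hzX, fun _ => hzY⟩
    rw [← e]
    exact key
  have ndiff : ∀ {X : M}, E X U → ¬ E (diff κ X) U := by
    intro X hX h
    have h1 := inter hX h
    have : SW.inter X (diff κ X) = emp := eq_emp fun z hz => by
      rw [mem_inter, mem_diff] at hz
      exact hz.2.2 hz.1
    rw [this] at h1
    exact nemp h1
  have full : E κ U := by
    rcases hU.ult (Sub.refl κ) with h | h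
    · exact h
    · have : diff κ κ = emp := eq_emp fun z hz => by
        rw [mem_diff] at hz
        exact hz.2 hz.1
      rw [this] at h
      exact absurd h nemp
  have compl : ∀ {X : M}, Sub X κ → ¬ E X U → E (diff κ X) U := fun hX h =>
    (hU.ult hX).resolve_left h
  have tail : ∀ {a : M}, E a κ → E (diff κ a) U := by
    intro a ha
    have key := hU.cmp (v := a) (fun x : M => diff κ (sing x)) inferInstance ha
      (fun x hx => compl (fun z hz => by
        rw [mem_sing] at hz
        rw [hz]; exact hU.ord.1 a ha x hx) (hU.np (Sub.refl _)))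
    have e : sep κ (fun z : M => ∀ x : M, E x a → E z (diff κ (sing x))) = diff κ a := by
      refine ext fun z => ?_
      rw [mem_sep' inferInstance, mem_diff]
      constructor
      · rintro ⟨hz, h⟩
        refine ⟨hz, fun hza => ?_⟩
        have := h z hza
        rw [mem_diff, mem_sing] at this
        exact this.2 rfl
      · rintro ⟨hz, h⟩
        refine ⟨hz, fun x hx => ?_⟩
        rw [mem_diff, mem_sing]
        exact ⟨hz, fun e => h (by rw [e]; exact hx)⟩
    rw [← e]
    exact key
  have nbdd : ∀ {X a : M}, E a κ → Sub X a → ¬ E X U := by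
    intro X a ha hXa hX
    have h1 := inter hX (tail ha)
    have : SW.inter X (diff κ a) = emp := eq_emp fun z hz => by
      rw [mem_inter, mem_diff] at hz
      exact hz.2.2 (hXa z hz.1)
    rw [this] at h1
    exact nemp h1
  have suc' : ∀ {a : M}, E a κ → E (suc a) κ := by
    intro a ha
    rcases Ord.tri (Ord_suc (ordm ha)) hU.ord with h | h | h
    · exact h
    · exfalso
      -- `κ = a ∪ {a}`
      have h1 : ¬ E a U := nbdd ha (Sub.refl a)
      have h2 : ¬ E (sing a) U := hU.np (Sub.refl _)
      have h3 := compl (X := sing a) (fun z hz => by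
        rw [mem_sing] at hz
        rw [hz]; exact ha) h2
      have : diff κ (sing a) = a := by
        refine ext fun z => ?_
        rw [mem_diff, mem_sing, ← h, mem_suc]
        constructor
        · rintro ⟨h4 | h4, h5⟩
          · exact h4
          · exact absurd h4 h5
        · intro h4
          exact ⟨Or.inl h4, fun h5 => not_mem_self a (by rw [← h5] at h4 ⊢; exact h4)⟩
      rw [this] at h3
      exact h1 h3
    · exfalso
      rw [mem_suc] at h
      rcases h with h | h
      · exact not_mem_cycle h ha
      · rw [h] at ha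
        exact not_mem_self a ha
  refine ⟨full, nemp, inter, ndiff, ordm, suc', nbdd, tail, ?_⟩
  intro X C hC hX h
  refine hU.up hX (fun z hz => ?_) (fun z hz => ?_)
  · rw [mem_sep' hC]
    exact ⟨hU.sub hX z hz, h z hz⟩
  · rw [mem_sep' hC] at hz
    exact hz.1

end SW.CC
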