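import Pool.Agent.H94.CC.Stmts

/-!
Module MSN: the measure is a measure in the extension.
-/

set_option linter.unusedVariables false
set_option linter.unusedSectionVars false
set_option synthInstance.maxSize 100000

namespace SW.CC

theorem cc_msn (hsbn : SBNStmt) (hfun : FUNStmt) : MSNStmt := by
  intro M _ _ _ κ U G hU hG _
  have ef := embF hG
  have tf := traF hG
  have hpow := hsbn M κ U G hU hG
  have hsubset : ∀ X : Ext (CF κ) G, Sub X (emb (CF κ) G κ) →
      ∃ X0 : M, Sub X0 κ ∧ X = emb (CF κ) G X0 := by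
    intro X hX
    have h1 : E X (pow (emb (CF κ) G κ)) := mem_pow.2 hX
    rw [hpow] at h1
    obtain ⟨X0, hX0, rfl⟩ := ef.trans _ _ h1
    exact ⟨X0, mem_pow.1 hX0, rfl⟩
  refine ⟨tf.ord _ hU.ord, ?_, ?_, ?_, ?_, ?_, ?_⟩
  · rw [← tf.om, ef.mem]
    exact hU.om
  · intro X hX
    obtain ⟨X0, hX0, rfl⟩ := ef.trans _ _ hX
    exact (tf.sub _ _).2 (hU.sub hX0)
  · intro X Y hX hXY hY
    obtain ⟨X0, hX0, rfl⟩ := ef.trans _ _ hX
    obtain ⟨Y0, hY0, rfl⟩ := hsubset Y hY
    rw [ef.mem]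
    exact hU.up hX0 ((tf.sub _ _).1 hXY) hY0
  · intro X hX
    obtain ⟨X0, hX0, rfl⟩ := hsubset X hX
    have hd : diff (emb (CF κ) G κ) (emb (CF κ) G X0) = emb (CF κ) G (diff κ X0) := by
      refine ext fun z => ?_
      rw [mem_diff]
      constructor
      · rintro ⟨h1, h2⟩
        obtain ⟨z0, hz0, rfl⟩ := ef.trans _ _ h1
        rw [ef.mem] at h2
        rw [ef.mem, mem_diff]
        exact ⟨hz0, h2⟩
      · intro h
        obtain ⟨z0, hz0, rfl⟩ := ef.trans _ _ h
        rw [mem_diff] at hz0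
        rw [ef.mem, ef.mem]
        exact hz0
    rw [hd, ef.mem, ef.mem]
    exact hU.ult hX0
  · intro X a hX hXU
    obtain ⟨X0, hX0, rfl⟩ := ef.trans _ _ hXU
    by_cases hne : ∃ x0, E x0 X0
    · obtain ⟨x0, hx0⟩ := hne
      refine hU.np (X := X0) (a := x0) (fun x hx => ?_) hX0
      have h1 := hX _ ((ef.mem x0 X0).2 hx0)
      have h2 := hX _ ((ef.mem x X0).2 hx)
      rw [mem_sing] at h1 h2
      rw [mem_sing, ← ef.inj, h1, h2]
    · exact hU.np (X := X0) (a := emp) (fun x hx => absurd ⟨x, hx⟩ hne) hX0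
  · intro v f hf hv hfU
    obtain ⟨v0, hv0, rfl⟩ := ef.trans _ _ hv
    obtain ⟨g, hg, _⟩ := hfun M κ U G hU hG v0 U f (hU.ord.sub_of_mem hv0) hf
      (fun i hi => hfU _ ((ef.mem i v0).2 hi))
    have h1 := hU.cmp (v := v0) (fun x => app g x) inferInstance hv0 (fun x hx => (hg x hx).1)
    have hs : ∀ z, E z (sep κ (fun z : M => ∀ x : M, E x v0 → E z (app g x))) ↔
        E z κ ∧ ∀ x : M, E x v0 → E z (app g x) := fun z => mem_sep' inferInstance
    have key : sep (emb (CF κ) G κ) (fun z : Ext (CF κ) G => ∀ x : Ext (CF κ) G,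
        E x (emb (CF κ) G v0) → E z (f x)) =
        emb (CF κ) G (sep κ (fun z : M => ∀ x : M, E x v0 → E z (app g x))) := by
      refine ext fun z => ?_
      rw [mem_sep' inferInstance]
      constructor
      · rintro ⟨h2, h3⟩
        obtain ⟨z0, hz0, rfl⟩ := ef.trans _ _ h2
        rw [ef.mem, hs]
        refine ⟨hz0, fun x hx => ?_⟩
        have h4 := h3 _ ((ef.mem x v0).2 hx)
        rw [(hg x hx).2, ef.mem] at h4
        exact h4
      · intro h
        obtain ⟨z0, hz0, rfl⟩ := ef.trans _ _ h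
        obtain ⟨h2, h3⟩ := (hs z0).1 hz0
        refine ⟨(ef.mem _ _).2 h2, fun x hx => ?_⟩
        obtain ⟨x0, hx0, rfl⟩ := ef.trans _ _ hx
        rw [(hg x0 hx0).2, ef.mem]
        exact h3 x0 hx0
    rw [key, ef.mem]
    exact h1

end SW.CC
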