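import Pool.Agent.H94.CC.Stmts

/-!
Module MSR: the two notions of measure agree.
-/

set_option linter.unusedVariables false
set_option linter.unusedSectionVars false
set_option synthInstance.maxSize 100000

namespace SW.CC

section
variable {M : Type} [SetStr M] [ZF M]

theorem msr_limit {g : M} (h : IsLimit g) : Sub om g := by
  obtain ⟨h1, ⟨x, hx⟩, h2⟩ := h
  have ho : Ord g := h1
  refine fun n hn => om_ind (C := fun n : M => E n g) inferInstance ?_ ?_ n hn
  · exact emp_mem_ord ho fun e => not_mem_emp x (by rw [← e]; exact hx)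
  · intro n hn ih
    obtain ⟨y, hy, hny⟩ := h2 n ih
    have h3 : Sub (suc n) y := Ord.suc_sub (ho.mem ih) (ho.mem hy) hny
    rcases (Ord.sub_iff (Ord_suc (ho.mem ih)) (ho.mem hy)).1 h3 with h4 | h4
    · exact ho.1 y hy _ h4
    · rw [h4]; exact hy

theorem msr_om : IsLimit (om : M) := by
  refine ⟨Ord_om, ⟨emp, emp_mem_om⟩, fun x hx => ⟨suc x, suc_mem_om hx, ?_⟩⟩
  rw [mem_suc]
  exact Or.inr rfl

theorem msr_app {f v U : M} (h : IsFunc f v U) {x : M} (hx : E x v) :
    E (app f x) U ∧ ∀ y, PairIn x y f ↔ y = app f x := by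
  obtain ⟨y, hy, h1, h2⟩ := h x hx
  have h3 : app f x = y := the_eq (pairIn_iff.1 h1) fun z hz => h2 z (pairIn_iff.2 hz)
  rw [h3]
  refine ⟨hy, fun z => ⟨h2 z, ?_⟩⟩
  rintro rfl
  exact h1

end

theorem cc_msr (hmsf : MSFStmt) : MSRStmt := by
  intro M _ _ κ U
  constructor
  · rintro ⟨h1, ⟨w, hw, hw'⟩, h3, h4, h5, h6, h7⟩
    have ho : Ord κ := h1
    refine ⟨ho, ?_, fun hX => h3 _ hX, fun hX hXY hY => h4 _ _ hX hXY hY, ?_, ?_, ?_⟩
    · rcases (Ord.sub_iff Ord_om (ho.mem hw)).1 (msr_limit hw') with h | h
      · exact ho.1 w hw _ h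
      · rw [h]; exact hw
    · intro X hX
      by_cases h : E X U
      · exact Or.inl h
      · right
        by_contra h'
        exact h ((h5 X (diff κ X) hX (fun z => mem_diff)).2 h')
    · intro X a hX
      exact h6 X a fun z hz => mem_sing.1 (hX z hz)
    · intro v f hf hv hfU
      refine h7 v (gr v f) _ hv (fun x hx => ⟨f x, hfU x hx, ?_, fun y' hy' => ?_⟩) fun z => ?_
      · rw [pairIn_iff, opair_mem_gr hf]
        exact ⟨hx, rfl⟩
      · rw [pairIn_iff, opair_mem_gr hf] at hy'
        exact hy'.2
      · rw [mem_sep' inferInstance]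
        refine and_congr_right fun _ => ?_
        constructor
        · intro h x y hx hxy
          rw [pairIn_iff, opair_mem_gr hf] at hxy
          rw [hxy.2]
          exact h x hx
        · intro h x hx
          exact h x (f x) hx (by rw [pairIn_iff, opair_mem_gr hf]; exact ⟨hx, rfl⟩)
  · intro hU
    have mf := hmsf M κ U hU
    refine ⟨hU.ord, ⟨om, hU.om, msr_om⟩, fun X hX => hU.sub hX,
      fun X Y hX hXY hY => hU.up hX hXY hY, ?_, ?_, ?_⟩
    · intro X Y hX hY
      have e : Y = diff κ X := ext fun z => by rw [hY, mem_diff]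
      rw [e]
      constructor
      · exact fun h => mf.ndiff h
      · intro h
        exact (hU.ult hX).resolve_right h
    · intro X a hX
      exact hU.np (X := X) (a := a) fun z hz => mem_sing.2 (hX z hz)
    · intro v f X hv hf hX
      have h1 := hU.cmp (v := v) (fun x : M => app f x) inferInstance hv
        (fun x hx => (msr_app hf hx).1)
      have e : X = sep κ (fun z : M => ∀ x : M, E x v → E z (app f x)) := by
        refine ext fun z => ?_
        rw [hX, mem_sep' inferInstance]
        refine and_congr_right fun _ => ?_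
        constructor
        · intro h x hx
          exact h x _ hx (((msr_app hf hx).2 _).2 rfl)
        · intro h x y hx hxy
          rw [((msr_app hf hx).2 y).1 hxy]
          exact h x hx
      rw [e]
      exact h1

end SW.CC
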