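import Pool.Agent.H31.CC.MSR

/-!
Module REG: `κ` is regular.
-/

set_option linter.unusedVariables false
set_option linter.unusedSectionVars false
set_option synthInstance.maxSize 100000

namespace SW.CC

theorem cc_reg (hsma : SMAStmt) : REGStmt := by
  intro M _ _ κ U hU
  have hs := hsma M κ U hU
  refine ⟨hU.ord, ⟨om, hU.om, msr_om⟩, fun v f hv hf => ?_⟩
  obtain ⟨b, hb, h⟩ := hs.bnd (X := v) (fun x : M => app f x) inferInstance (hs.ord hv)
    (fun x hx => (msr_app hf hx).1)
  refine ⟨b, hb, fun x y hx hxy => ?_⟩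
  rw [((msr_app hf hx).2 y).1 hxy]
  exact h x hx

end SW.CC
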