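import Pool.Agent.H94.CC.Stmts

/-!
Module SBN: the subsets of `κ` in the extension are those of `M`.
-/

set_option linter.unusedVariables false
set_option linter.unusedSectionVars false
set_option synthInstance.maxSize 100000

namespace SW.CC

theorem cc_sbn (hfun : FUNStmt) : SBNStmt := by
  intro M _ _ _ κ U G hU hG _
  have ef := embF hG
  have tf := traF hG
  refine ext fun X => ?_
  rw [mem_pow]
  constructor
  · intro hX
    have hh : Fn1 (fun j : Ext (CF κ) G => sep (sing emp) (fun _ : Ext (CF κ) G => E j X)) := by
      infer_instance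
    have hm : ∀ j z : Ext (CF κ) G, E z (sep (sing emp) (fun _ : Ext (CF κ) G => E j X)) ↔
        z = emp ∧ E j X := by
      intro j z
      rw [mem_sep' inferInstance, mem_sing]
    have hyes : ∀ j : Ext (CF κ) G, E j X → sep (sing emp) (fun _ : Ext (CF κ) G => E j X) =
        emb (CF κ) G (suc emp) := by
      intro j hj
      rw [tf.suc, tf.emp]
      refine ext fun z => ?_
      rw [hm, mem_suc]
      constructor
      · rintro ⟨h, _⟩
        exact Or.inr h
      · rintro (h | h)
        · exact absurd h (not_mem_emp z)
        · exact ⟨h, hj⟩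
    have hno : ∀ j : Ext (CF κ) G, ¬ E j X → sep (sing emp) (fun _ : Ext (CF κ) G => E j X) =
        emb (CF κ) G emp := by
      intro j hj
      rw [tf.emp]
      exact eq_emp fun z hz => hj ((hm j z).1 hz).2
    obtain ⟨g, hg, _⟩ := hfun M κ U G hU hG κ (ins (suc emp) (sing emp)) _ (Sub.refl κ) hh
      (fun i hi => by
        by_cases h : E (emb (CF κ) G i) X
        · rw [hyes _ h, ef.mem, mem_ins]
          exact Or.inr rfl
        · rw [hno _ h, ef.mem, mem_ins, mem_sing]
          exact Or.inl rfl)
    have hs : ∀ z, E z (sep κ (fun i : M => app g i = suc emp)) ↔ E z κ ∧ app g z = suc emp :=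
      fun z => mem_sep' inferInstance
    have key : X = emb (CF κ) G (sep κ (fun i : M => app g i = suc emp)) := by
      refine ext fun z => ?_
      constructor
      · intro hz
        obtain ⟨i, hi, rfl⟩ := ef.trans _ _ (hX z hz)
        rw [ef.mem, hs]
        refine ⟨hi, ?_⟩
        have h1 := (hg i hi).2
        rw [hyes _ hz, ef.inj] at h1
        exact h1.symm
      · intro hz
        obtain ⟨i, hi, rfl⟩ := ef.trans _ _ hz
        obtain ⟨hi, h2⟩ := (hs i).1 hi
        by_contra hcon
        have h1 := (hg i hi).2
        rw [hno _ hcon, ef.inj, h2] at h1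
        exact suc_ne_emp _ h1.symm
    rw [key, ef.mem, mem_pow]
    exact fun z hz => ((hs z).1 hz).1
  · intro hX
    obtain ⟨X0, hX0, rfl⟩ := ef.trans _ _ hX
    rw [mem_pow] at hX0
    exact (tf.sub _ _).2 hX0

end SW.CC
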