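import Pool.Agent.H94.CC.Stmts

/-!
Module SMN: small subsets (in the extension) of sets of `M` are in `M` and small there.
-/

set_option linter.unusedVariables false
set_option linter.unusedSectionVars false
set_option synthInstance.maxSize 100000

namespace SW.CC

theorem cc_smn (hsmb : SMBStmt) (hmsn : MSNStmt) (hfun : FUNStmt) : SMNStmt := by
  intro M _ _ _ κ U G hU hG _ X S hS hsm
  have ef := embF hG
  have tf := traF hG
  have hUN := hmsn M κ U G hU hG
  obtain ⟨v, f, hv, h1, h2, h3⟩ := (hsmb (Ext (CF κ) G) _ _ hUN).bij hsm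
  obtain ⟨v0, hv0, rfl⟩ := ef.trans _ _ hv
  obtain ⟨g, hg, _⟩ := hfun M κ U G hU hG v0 X (fun i => app f i) (hU.ord.sub_of_mem hv0)
    inferInstance (fun i hi => hS _ (h1 _ ((ef.mem i v0).2 hi)))
  have hi : ∀ z, E z (img v0 (fun i : M => app g i)) ↔ ∃ i, E i v0 ∧ z = app g i :=
    fun z => mem_img' inferInstance
  refine ⟨img v0 (fun i : M => app g i), fun z hz => ?_, ?_, ext fun z => ?_⟩
  · obtain ⟨i, hi, rfl⟩ := (hi z).1 hz
    exact (hg i hi).1
  · have hs := (hsmb M κ U hU).toSmA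
    exact hs.img (fun i => app g i) inferInstance (hs.ord hv0)
  · constructor
    · intro hz
      obtain ⟨i, hi', rfl⟩ := h3 z hz
      obtain ⟨i0, hi0, rfl⟩ := ef.trans _ _ hi'
      have h4 := (hg i0 hi0).2
      rw [h4, ef.mem, hi]
      exact ⟨i0, hi0, rfl⟩
    · intro hz
      obtain ⟨z0, hz0, rfl⟩ := ef.trans _ _ hz
      obtain ⟨i, hi0, rfl⟩ := (hi z0).1 hz0
      have h4 := (hg i hi0).2
      rw [← h4]
      exact h1 _ ((ef.mem i v0).2 hi0)

end SW.CC
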